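import Pool.Agent.N728.QU.Win

set_option autoImplicit false

/-!
# The largest prime `k (n - k) - 1` is close to `n² / 4` for almost all `n`

For all `η, ε > 0` and all large `N` the largest prime `a(n)` of the form `k (n - k) - 1`, `1 ≤ k ≤ n / 2`, satisfies
`a(n) ≥ (1 - η) n² / 4` for all but at most `ε N` of the `n ≤ N`.

Proof (`Agent/N728/QU`): with `n = 2 h` or `n = 2 h + 1` and `k = h - m` the values are `h² - 1 - m²`, `h (h + 1) - 1 - m (m + 1)`,
and the number of these primes with `m ≤ η' h` is the expected one for almost all `h` (project QV).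
-/

namespace Pool.Agent.Results.MP_77e955_nt.LargestPrime

open Finset

/-- `a(n)`: the largest prime of the form `k (n - k) - 1` with `1 ≤ k ≤ n / 2`, and `0` if there is none. -/
def a (n : ℕ) : ℕ := (((Icc 1 (n / 2)).image (fun k => k * (n - k) - 1)).filter Nat.Prime).sup id

open Classical in
/-- The number of the `n ≤ N` with `a(n) < (1 - η) n² / 4`. -/
noncomputable def exceptions (η : ℝ) (N : ℕ) : ℕ :=
  ((Icc 1 N).filter (fun n : ℕ => (a n : ℝ) < (1 - η) * ((n : ℝ) ^ 2 / 4))).card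

/-- **Theorem.** -/
theorem result (η ε : ℝ) (hη : 0 < η) (hε : 0 < ε) : ∃ N₀ : ℕ, ∀ N : ℕ, N₀ ≤ N →
    (exceptions η N : ℝ) ≤ ε * N := by
  classical
  obtain ⟨N₀, h⟩ := Pool.Agent.N728.QU.big (-1) (Or.inr rfl) η ε hη hε
  refine ⟨N₀, fun N hN => ?_⟩
  obtain ⟨S, hS, h1⟩ := h N hN
  refine le_trans ?_ hS
  unfold exceptions
  rw [Nat.cast_le]
  apply card_le_card
  intro n hn
  rw [mem_filter] at hn
  by_contra hnS
  obtain ⟨k, k1, k2, k3, k4⟩ := h1 n hn.1 hnS
  have e1 : (((k * (n - k) : ℕ) : ℤ) + (-1)).toNat = k * (n - k) - 1 := by omega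
  rw [e1] at k3 k4
  have e2 : k * (n - k) - 1 ≤ a n := by
    unfold a
    refine le_sup (f := id) ?_
    rw [mem_filter, mem_image]
    exact ⟨⟨k, mem_Icc.2 ⟨k1, k2⟩, rfl⟩, k3⟩
  have e3 : ((k * (n - k) - 1 : ℕ) : ℝ) ≤ a n := by exact_mod_cast e2
  linarith [hn.2]

end Pool.Agent.Results.MP_77e955_nt.LargestPrime
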